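import Pool.Agent.H78.MidCoef.Sufficiency

/-!
# When do `aU ⊕ bU ⊕ cU` and `aU ⊕ b'U ⊕ cU` coincide?
-/

namespace Pool.Agent.Results.MP_f00063_lc.Classification

open Pool.Agent.H78.MidCoef

/-- For positive integers `a, b, b', c` with `b ≠ b'`, there is an ultrafilter `U` on the positive
integers with `aU ⊕ bU ⊕ cU = aU ⊕ b'U ⊕ cU` if and only if `b / a = c / b' = (b' / b) ^ t` for some
integer `t`. For instance `(a, b, b', c) = (1, 2, 4, 8)` with `t = 1`. -/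
theorem result (a b b' c : ℕ+) (hne : b ≠ b') :
    (∃ U : Ultrafilter ℕ+,
      oplus (oplus (smul a U) (smul b U)) (smul c U) =
        oplus (oplus (smul a U) (smul b' U)) (smul c U)) ↔
    ∃ t : ℤ, ((b : ℕ) : ℚ) / (a : ℕ) = (((b' : ℕ) : ℚ) / (b : ℕ)) ^ t ∧
      ((c : ℕ) : ℚ) / (b' : ℕ) = (((b' : ℕ) : ℚ) / (b : ℕ)) ^ t :=
  ⟨fun ⟨_, hU⟩ => necessity hne hU, fun ⟨_, h1, h2⟩ => sufficiency h1 h2⟩

end Pool.Agent.Results.MP_f00063_lc.Classification
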